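import Pool.Agent.Lib.helper12.Schreier

set_option autoImplicit false
open Filter Topology Function Pool.Agent.Lib.helper12.Schreier
open scoped Pointwise

namespace Pool.Agent.Results.MP_f10b34_al.Full

/-- contracting: all long enough restrictions of each element lie in one finite set -/
def Contr {X : Type} (L : Subgroup (Equiv.Perm (List X))) : Prop :=
  ∃ N : Set (Equiv.Perm (List X)), N.Finite ∧ N ⊆ L ∧ ∀ g ∈ L, ∃ n, ∀ v : List X, n ≤ v.length →
    ∃ h ∈ N, ∀ w, g (v ++ w) = g v ++ h w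

/-- the set of degrees of growth -/
def Degs : Set ℝ :=
  {α | ∃ (X : Type) (_ : Fintype X) (L : Subgroup (Equiv.Perm (List X)))
    (S : Set (Equiv.Perm (List X))) (ξ : ℕ → X),
      SelfSim L ∧ Contr L ∧ S.Finite ∧ Subgroup.closure S = L ∧
      limsup (fun n : ℕ => ((Real.log (ball S ξ n).ncard / Real.log n : ℝ) : EReal)) atTop =
        (α : EReal)}

variable {M : ℕ}

def A (t : ℤ) : Equiv.Perm (List (X M)) := ⟨fa t, fa (-t), fa_fa _ _ (by simp), fa_fa _ _ (by simp)⟩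
def B (t : ℤ) : Equiv.Perm (List (X M)) := ⟨fb t, fb (-t), fb_fb _ _ (by simp), fb_fb _ _ (by simp)⟩

lemma fa_add (s t : ℤ) : ∀ w : List (X M), fa s (fa t w) = fa (t + s) w
  | [] => rfl
  | x :: w => by simp [fa, rot_rot]

lemma fb_add (s t : ℤ) : ∀ w : List (X M), fb s (fb t w) = fb (t + s) w
  | [] => rfl
  | x :: w => by
    simp only [fb]
    split_ifs <;> simp [fa_add s t, fb_add s t w]

lemma fa_eq {s t : ℤ} (h : (rot s : X M → X M) = rot t) : ∀ w : List (X M), fa s w = fa t w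
  | [] => rfl
  | x :: w => by simp [fa, h]

lemma fb_eq {s t : ℤ} (h : (rot s : X M → X M) = rot t) : ∀ w : List (X M), fb s w = fb t w
  | [] => rfl
  | x :: w => by simp [fb, fa_eq h, fb_eq h w]

lemma mem_of (F : ℤ → Equiv.Perm (List (X M))) (hF : ∀ s t, F s * F t = F (t + s))
    (L : Subgroup (Equiv.Perm (List (X M)))) (h : F 1 ∈ L) (t : ℤ) : F t ∈ L := by
  have h0 : F 0 = 1 := by simpa using hF 0 0
  induction t using Int.induction_on with
  | zero => exact h0 ▸ one_mem _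
  | succ n ih => exact hF 1 n ▸ mul_mem h ih
  | pred n ih =>
    have := hF 1 (-n - 1)
    rw [sub_add_cancel] at this
    exact (mul_mem_cancel_left h).1 (this ▸ ih)

def U (M : ℕ) : Set (Equiv.Perm (List (X M))) := Set.range A ∪ Set.range B

lemma U_one : 1 ∈ U M := Or.inl ⟨0, Equiv.ext fun w => by
  cases w <;> simp [A, fa, rot_zero]⟩

lemma U_fin : (U M).Finite := by
  refine ((Set.finite_range fun σ : X M → X M => A (invFun rot σ)).subset ?_).union
    ((Set.finite_range fun σ : X M → X M => B (invFun rot σ)).subset ?_) <;> rintro _ ⟨t, rfl⟩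
  · exact ⟨rot t, Equiv.ext (fa_eq (invFun_eq ⟨t, rfl⟩))⟩
  · exact ⟨rot t, Equiv.ext (fb_eq (invFun_eq ⟨t, rfl⟩))⟩

lemma sec_B (t : ℤ) (x : X M) : ∃ h ∈ U M, ∀ w, B t (x :: w) = x :: h w := by
  refine ⟨if v x = 0 then A t else if v x = 1 then B t else 1, ?_, fun w => ?_⟩
  · split_ifs; exacts [Or.inl ⟨t, rfl⟩, Or.inr ⟨t, rfl⟩, U_one]
  · change fb t _ = _
    rw [fb]; split_ifs <;> rfl

lemma sec : ∀ m : ℕ, ∀ g ∈ U M ^ (2 * m), ∀ x, ∃ h ∈ U M ^ m, ∃ y, ∀ w, g (x :: w) = y :: h w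
  | 0, g, hg, x => ⟨1, by simp, x, fun w => by rw [show g = 1 by simpa using hg]; rfl⟩
  | m + 1, g, hg, x => by
    rw [mul_add, pow_add, mul_one, sq] at hg
    obtain ⟨g, hg, _, ⟨s, hs, t, ht, rfl⟩, rfl⟩ := hg
    obtain ⟨h, a1, y, a2⟩ : ∃ h ∈ U M, ∃ y, ∀ w, (s * t) (x :: w) = y :: h w := by
      rcases hs with ⟨s, rfl⟩ | ⟨s, rfl⟩ <;> rcases ht with ⟨t, rfl⟩ | ⟨t, rfl⟩
      · exact ⟨1, U_one, _, fun w => rfl⟩
      · obtain ⟨h, a1, a2⟩ := sec_B t x
        exact ⟨h, a1, _, fun w => by rw [Equiv.Perm.mul_apply, a2]; rfl⟩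
      · obtain ⟨h, a1, a2⟩ := sec_B s (rot t x)
        exact ⟨h, a1, _, fun w => a2 w⟩
      · obtain ⟨h, a1, a2⟩ := sec_B (t + s) x
        exact ⟨h, a1, _, fun w => (fb_add s t _).trans (a2 w)⟩
    obtain ⟨h', b1, z, b2⟩ := sec m g hg y
    exact ⟨h' * h, pow_succ (U M) m ▸ Set.mul_mem_mul b1 a1, z, fun w => by
      simp only [Equiv.Perm.mul_apply] at a2 ⊢; rw [a2, b2]⟩

lemma contr : Contr (Subgroup.closure {a M, b M}) := by
  have hU : U M ⊆ Subgroup.closure {a M, b M} := by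
    rintro _ (⟨t, rfl⟩ | ⟨t, rfl⟩)
    · exact mem_of A (fun s t => Equiv.ext (fa_add s t)) _ (Subgroup.subset_closure (Or.inl rfl)) t
    · exact mem_of B (fun s t => Equiv.ext (fb_add s t)) _ (Subgroup.subset_closure (Or.inr rfl)) t
  have key : ∀ (v : List (X M)) (k : ℕ), ∀ g ∈ U M ^ 2 ^ k, k ≤ v.length →
      ∃ h ∈ U M, ∀ w, g (v ++ w) = g v ++ h w := by
    intro v
    induction v with
    | nil =>
      intro k g hg hk
      obtain rfl : k = 0 := by simpa using hk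
      rw [pow_zero, pow_one] at hg
      exact ⟨g, hg, fun w => by rw [(selfsim g (hU hg)).1]; rfl⟩
    | cons x v ih =>
      intro k g hg hk
      obtain ⟨h, a1, y, a2⟩ := sec (2 ^ (k - 1)) g (Set.pow_subset_pow_right U_one (by
        rw [← pow_succ']; exact Nat.pow_le_pow_right two_pos (by omega)) hg) x
      obtain ⟨h', b1, b2⟩ := ih _ h a1 (by simp at hk; omega)
      exact ⟨h', b1, fun w => by rw [List.cons_append, a2, a2, b2]; rfl⟩
  refine ⟨U M, U_fin, hU, fun g hg => ?_⟩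
  obtain ⟨m, hm⟩ : ∃ m, g ∈ U M ^ m := by
    induction hg using Subgroup.closure_induction'' with
    | one => exact ⟨0, by simp⟩
    | mem s hs => exact ⟨1, by
        rw [pow_one]; rcases hs with rfl | rfl; exacts [Or.inl ⟨1, rfl⟩, Or.inr ⟨1, rfl⟩]⟩
    | inv_mem s hs => exact ⟨1, by
        rw [pow_one]; rcases hs with rfl | rfl; exacts [Or.inl ⟨-1, rfl⟩, Or.inr ⟨-1, rfl⟩]⟩
    | mul g h _ _ hg hh =>
      obtain ⟨m, hm⟩ := hg
      obtain ⟨n, hn⟩ := hh
      exact ⟨m + n, pow_add (U M) m n ▸ Set.mul_mem_mul hm hn⟩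
  exact ⟨m, fun v hv => key v m g (Set.pow_subset_pow_right U_one Nat.lt_two_pow_self.le hm) hv⟩

lemma fin_orbit {X : Type} {S : Set (Equiv.Perm (List X))} {ξ : ℕ → X}
    (h : (pt ξ '' (Subgroup.closure S)).Finite) :
    limsup (fun n : ℕ => ((Real.log (ball S ξ n).ncard / Real.log n : ℝ) : EReal)) atTop =
      ((0 : ℝ) : EReal) := by
  refine (EReal.tendsto_coe.2 (lim _ 0 (Real.log (pt ξ '' (Subgroup.closure S)).ncard)
    (Eventually.of_forall fun n => ?_))).limsup_eq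
  rw [zero_mul, sub_zero, abs_of_nonneg (Real.log_natCast_nonneg _)]
  rcases (ball S ξ n).ncard.eq_zero_or_pos with e | e
  · rw [e, Nat.cast_zero, Real.log_zero]; exact Real.log_natCast_nonneg _
  · exact Real.log_le_log (by exact_mod_cast e) (by exact_mod_cast Set.ncard_le_ncard (ball_sub n) h)

theorem result : Degs = {0} ∪ Set.Ici 1 := by
  ext α
  constructor
  · rintro ⟨X, _, L, S, ξ, -, -, hS, rfl, h⟩
    by_cases h1 : (pt ξ '' (Subgroup.closure S)).Finite
    · exact Or.inl (EReal.coe_injective (h.symm.trans (fin_orbit h1)))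
    refine Or.inr (EReal.coe_le_coe_iff.1 (h ▸ le_limsup_of_frequently_le (Eventually.frequently ?_)))
    filter_upwards [eventually_ge_atTop 2] with n hn
    have : (1 : ℝ) < n := by exact_mod_cast hn
    rw [EReal.coe_le_coe_iff, one_le_div (Real.log_pos this)]
    exact Real.log_le_log (by linarith) (by exact_mod_cast (Nat.le_succ n).trans (ball_ge hS h1 n))
  rintro (rfl | h)
  · refine ⟨Bool, inferInstance, ⊥, ∅, fun _ => true, ?_, ⟨{1}, by simp, by simp, ?_⟩, by simp, by simp,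
      fin_orbit (by simp)⟩
    · rintro g rfl
      exact ⟨rfl, fun x => ⟨1, one_mem _, x, fun _ => rfl⟩⟩
    · rintro g rfl
      exact ⟨0, fun v _ => ⟨1, rfl, fun _ => rfl⟩⟩
  · obtain ⟨M, ω, h⟩ := exists_deg α h
    exact ⟨X M, inferInstance, _, _, xi ω, selfsim, contr, Set.toFinite _, rfl,
      (EReal.tendsto_coe.2 h).limsup_eq⟩

end Pool.Agent.Results.MP_f10b34_al.Full
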